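import Pool.Agent.K1H77.CG.Stm

/-! # Random matchings are connected -/

set_option autoImplicit false

open Finset Filter Topology

namespace Pool.Agent.K1H36.CG

open Pool.Agent.K1H77.CG

theorem fm_fact (N : ℕ) : fm (2 * N) * (2 ^ N * N.factorial) = (2 * N).factorial := by
  induction N with
  | zero => simp [fm]
  | succ N ih =>
    have e : 2 * (N + 1) = 2 * N + 2 := by ring
    rw [e, fm, Nat.factorial_succ (2 * N + 1), Nat.factorial_succ (2 * N), ← ih, pow_succ,
      Nat.factorial_succ]
    ring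

theorem vand (a b x y : ℕ) : a.choose x * b.choose y ≤ (a + b).choose (x + y) := by
  rw [Nat.add_choose_eq]
  exact Finset.single_le_sum (f := fun ij : ℕ × ℕ => a.choose ij.1 * b.choose ij.2)
    (fun _ _ => Nat.zero_le _) (by simp : (x, y) ∈ antidiagonal (x + y))

theorem cho (i j : ℕ) : (i + j).choose i * (i.factorial * j.factorial) = (i + j).factorial := by
  have := Nat.add_choose_mul_factorial_mul_factorial i j
  rw [← this, Nat.choose_symm_add]; ring

theorem ratio (i j : ℕ) :
    fm (6 * i) * fm (6 * j) * (6 * (i + j)).choose (6 * i) =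
      fm (6 * (i + j)) * (3 * (i + j)).choose (3 * i) := by
  have h1 := fm_fact (3 * i)
  have h2 := fm_fact (3 * j)
  have h3 := fm_fact (3 * (i + j))
  have h4 := cho (6 * i) (6 * j)
  have h5 := cho (3 * i) (3 * j)
  have e1 : 2 * (3 * i) = 6 * i := by ring
  have e2 : 2 * (3 * j) = 6 * j := by ring
  have e3 : 2 * (3 * (i + j)) = 6 * (i + j) := by ring
  have e4 : 6 * i + 6 * j = 6 * (i + j) := by ring
  have e5 : 3 * i + 3 * j = 3 * (i + j) := by ring
  rw [e1] at h1
  rw [e2] at h2
  rw [e3] at h3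
  rw [e4] at h4
  rw [e5] at h5
  have hpos : 0 < 2 ^ (3 * (i + j)) * ((3 * i).factorial * (3 * j).factorial) := by positivity
  apply Nat.eq_of_mul_eq_mul_right hpos
  calc fm (6 * i) * fm (6 * j) * (6 * (i + j)).choose (6 * i) *
        (2 ^ (3 * (i + j)) * ((3 * i).factorial * (3 * j).factorial))
      = (6 * (i + j)).choose (6 * i) * ((fm (6 * i) * (2 ^ (3 * i) * (3 * i).factorial)) *
          (fm (6 * j) * (2 ^ (3 * j) * (3 * j).factorial))) := by
        rw [mul_add 3 i j, pow_add]; ring
    _ = (6 * (i + j)).factorial := by rw [h1, h2, h4]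
    _ = fm (6 * (i + j)) * (2 ^ (3 * (i + j)) * (3 * (i + j)).factorial) := h3.symm
    _ = _ := by rw [← h5]; ring

theorem term (i j : ℕ) :
    (2 * (i + j)).choose (2 * i) * (fm (6 * i) * fm (6 * j)) * (i + j).choose i ≤
      fm (6 * (i + j)) := by
  have h1 := ratio i j
  have h2 : (3 * (i + j)).choose (3 * i) * (3 * (i + j)).choose (3 * i) ≤
      (6 * (i + j)).choose (6 * i) := by
    have := vand (3 * (i + j)) (3 * (i + j)) (3 * i) (3 * i)
    have e1 : 3 * (i + j) + 3 * (i + j) = 6 * (i + j) := by ring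
    have e2 : 3 * i + 3 * i = 6 * i := by ring
    rwa [e1, e2] at this
  have h3 : (2 * (i + j)).choose (2 * i) * (i + j).choose i ≤ (3 * (i + j)).choose (3 * i) := by
    have := vand (2 * (i + j)) (i + j) (2 * i) i
    have e1 : 2 * (i + j) + (i + j) = 3 * (i + j) := by ring
    have e2 : 2 * i + i = 3 * i := by ring
    rwa [e1, e2] at this
  have hpos : 0 < (3 * (i + j)).choose (3 * i) := Nat.choose_pos (by omega)
  apply Nat.le_of_mul_le_mul_right _ hpos
  rw [← h1]
  calc (2 * (i + j)).choose (2 * i) * (fm (6 * i) * fm (6 * j)) * (i + j).choose i *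
        (3 * (i + j)).choose (3 * i)
      = fm (6 * i) * fm (6 * j) * (((2 * (i + j)).choose (2 * i) * (i + j).choose i) *
          (3 * (i + j)).choose (3 * i)) := by ring
    _ ≤ fm (6 * i) * fm (6 * j) * ((3 * (i + j)).choose (3 * i) *
          (3 * (i + j)).choose (3 * i)) := by gcongr
    _ ≤ fm (6 * i) * fm (6 * j) * (6 * (i + j)).choose (6 * i) := by gcongr

theorem cho1 (k : ℕ) : ∀ i, 1 ≤ i → i + 1 ≤ k → k ≤ k.choose i := by
  induction k with
  | zero => intro i h1 h2; omega
  | succ k ih =>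
    intro i h1 h2
    obtain ⟨i, rfl⟩ : ∃ i', i = i' + 1 := ⟨i - 1, by omega⟩
    rw [Nat.choose_succ_succ']
    rcases Nat.lt_or_ge (i + 1) k with h | h
    · have := ih (i + 1) (by omega) (by omega)
      have : 0 < k.choose i := Nat.choose_pos (by omega)
      omega
    · have e : i + 1 = k := by omega
      subst e
      rw [Nat.choose_self, Nat.choose_succ_self_right]

theorem cho2 (k : ℕ) : ∀ i, 2 ≤ i → i + 2 ≤ k → k * (k - 1) ≤ 2 * k.choose i := by
  induction k with
  | zero => intro i h1 h2; omega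
  | succ k ih =>
    intro i h1 h2
    have h2c : ∀ m : ℕ, 2 * (m + 1).choose 2 = (m + 1) * m := by
      intro m
      rw [Nat.choose_two_right, Nat.add_sub_cancel]
      exact Nat.mul_div_cancel' (by rw [mul_comm]; exact (Nat.even_mul_succ_self m).two_dvd)
    rcases Nat.eq_or_lt_of_le h1 with rfl | h3
    · rw [h2c k, Nat.add_sub_cancel]
    rcases Nat.eq_or_lt_of_le h2 with h4 | h4
    · have e : i = k + 1 - 2 := by omega
      rw [e, Nat.choose_symm (by omega), h2c k, Nat.add_sub_cancel]
    obtain ⟨i, rfl⟩ : ∃ i', i = i' + 1 := ⟨i - 1, by omega⟩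
    rw [Nat.choose_succ_succ']
    have h5 := ih (i + 1) (by omega) (by omega)
    have h6 := cho1 k i (by omega) (by omega)
    rw [Nat.add_sub_cancel]
    obtain ⟨k, rfl⟩ : ∃ k', k = k' + 1 := ⟨k - 1, by omega⟩
    rw [Nat.add_sub_cancel] at h5
    nlinarith

theorem sum_even (h : ℕ → ℕ) (ho : ∀ i, h (2 * i + 1) = 0) (k : ℕ) :
    ∑ s ∈ range (2 * k + 1), h s = ∑ i ∈ range (k + 1), h (2 * i) := by
  induction k with
  | zero => simp
  | succ k ih =>
    rw [show 2 * (k + 1) + 1 = (2 * k + 1) + 1 + 1 by ring, sum_range_succ, sum_range_succ, ih,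
      ho k, sum_range_succ _ (k + 1)]
    congr 1

open Classical in
theorem card_bad (h1 : S_CLOS) (k : ℕ) :
    ((Mat (HE (2 * k))).filter (fun M => ¬ Conn M)).card ≤
      ∑ i ∈ range (k + 1), (2 * k).choose (2 * i) *
        (if i = 0 ∨ i = k then 0 else fm (6 * i) * fm (6 * (k - i))) := by
  set T : Finset (Finset (Fin (2 * k))) := univ.filter (fun S => S.Nonempty ∧ S ≠ univ) with hT
  set FF : Finset (Fin (2 * k)) → Finset (HE (2 * k)) := fun S => univ.filter (fun h => h.1 ∈ S)
    with hFF
  have hcard : ∀ S, (FF S).card = 3 * S.card := by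
    intro S
    have : FF S = S ×ˢ (univ : Finset (Fin 3)) := by
      ext ⟨a, b⟩; simp [hFF]
    rw [this, card_product, Finset.card_univ, Fintype.card_fin, mul_comm]
  have hsub : (Mat (HE (2 * k))).filter (fun M => ¬ Conn M) ⊆
      T.biUnion (fun S => (Mat (HE (2 * k))).filter (fun M => ∀ x ∈ FF S, M x ∈ FF S)) := by
    intro M hM
    rw [mem_filter] at hM
    obtain ⟨hM, hc⟩ := hM
    unfold Conn at hc
    push Not at hc
    obtain ⟨S, hS1, hS2, hS3⟩ := hc
    rw [mem_biUnion]
    refine ⟨S, by simp [hT, hS1, hS3], ?_⟩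
    rw [mem_filter]
    refine ⟨hM, fun x hx => ?_⟩
    simp only [hFF, mem_filter, mem_univ, true_and] at hx ⊢
    exact hS2 x hx
  set f : ℕ → ℕ := fun s => if s = 0 ∨ s = 2 * k then 0 else fm (3 * s) * fm (6 * k - 3 * s) with hf
  calc ((Mat (HE (2 * k))).filter (fun M => ¬ Conn M)).card
      ≤ (T.biUnion (fun S => (Mat (HE (2 * k))).filter
          (fun M => ∀ x ∈ FF S, M x ∈ FF S))).card := card_le_card hsub
    _ ≤ ∑ S ∈ T, ((Mat (HE (2 * k))).filter (fun M => ∀ x ∈ FF S, M x ∈ FF S)).card :=
        card_biUnion_le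
    _ ≤ ∑ S ∈ T, f S.card := by
        apply sum_le_sum
        intro S hS
        simp only [hT, mem_filter, mem_univ, true_and] at hS
        have h := h1 (HE (2 * k)) (FF S)
        have e1 : Fintype.card (HE (2 * k)) = 6 * k := by simp; ring
        rw [e1, hcard] at h
        have e2 : ¬ (S.card = 0 ∨ S.card = 2 * k) := by
          rintro (h | h)
          · exact hS.1.ne_empty (card_eq_zero.1 h)
          · apply hS.2
            rw [← card_eq_iff_eq_univ, h, Fintype.card_fin]
        simp only [hf, if_neg e2]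
        convert h using 2
    _ ≤ ∑ S ∈ (univ : Finset (Fin (2 * k))).powerset, f S.card := by
        apply sum_le_sum_of_subset
        intro S _
        simp
    _ = ∑ s ∈ range (2 * k + 1), (2 * k).choose s * f s := by
        rw [sum_powerset_apply_card]
        simp
    _ = ∑ i ∈ range (k + 1), (2 * k).choose (2 * i) * f (2 * i) := by
        apply sum_even (fun s => (2 * k).choose s * f s)
        intro i
        have : fm (3 * (2 * i + 1)) = 0 := by
          rw [show 3 * (2 * i + 1) = 2 * (3 * i + 1) + 1 by ring]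
          exact fm_odd _
        simp [hf, this]
    _ = _ := by
        apply sum_congr rfl
        intro i hi
        rw [mem_range] at hi
        congr 1
        simp only [hf]
        by_cases h : i = 0 ∨ i = k
        · rw [if_pos h, if_pos (by omega)]
        · rw [if_neg h, if_neg (by omega)]
          congr 2 <;> omega

open Classical in
theorem t_CONN (h1 : S_CLOS) : S_CONN := by
  unfold S_CONN
  have hlim : Tendsto (fun k : ℕ => (8 : ℝ) / k) atTop (𝓝 0) :=
    tendsto_const_div_atTop_nhds_zero_nat 8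
  refine squeeze_zero' (Eventually.of_forall fun k => by positivity) ?_ hlim
  filter_upwards [eventually_ge_atTop 2] with k hk
  have hfm : (0 : ℝ) < fm (6 * k) := by
    have := fm_pos (3 * k)
    rw [show 2 * (3 * k) = 6 * k by ring] at this
    exact_mod_cast this
  rw [div_le_iff₀ hfm]
  have hkR : (2 : ℝ) ≤ k := by exact_mod_cast hk
  have hb := card_bad h1 k
  refine le_trans (Nat.cast_le.2 hb) ?_
  have hterm : ∀ i ∈ range (k + 1), (((2 * k).choose (2 * i) *
        (if i = 0 ∨ i = k then 0 else fm (6 * i) * fm (6 * (k - i))) : ℕ) : ℝ) ≤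
      ((if i = 1 then (1 : ℝ) / k else 0) + (if i = k - 1 then (1 : ℝ) / k else 0) +
        2 / (k * (k - 1))) * fm (6 * k) := by
    intro i hi
    rw [mem_range] at hi
    have hA : (0 : ℝ) ≤ (if i = 1 then (1 : ℝ) / k else 0) := by split_ifs <;> positivity
    have hB : (0 : ℝ) ≤ (if i = k - 1 then (1 : ℝ) / k else 0) := by split_ifs <;> positivity
    have hC : (0 : ℝ) ≤ 2 / ((k : ℝ) * (k - 1)) := by
      apply div_nonneg (by norm_num)
      apply mul_nonneg <;> linarith
    by_cases h : i = 0 ∨ i = k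
    · rw [if_pos h, mul_zero, Nat.cast_zero]
      positivity
    · rw [if_neg h]
      push Not at h
      obtain ⟨j, rfl⟩ : ∃ j, k = i + j := ⟨k - i, by omega⟩
      have ht := term i j
      rw [Nat.add_sub_cancel_left]
      have ht' : (((2 * (i + j)).choose (2 * i) * (fm (6 * i) * fm (6 * j)) : ℕ) : ℝ) *
          ((i + j).choose i : ℝ) ≤ fm (6 * (i + j)) := by exact_mod_cast ht
      have hcp : (0 : ℝ) < ((i + j).choose i : ℝ) := by
        exact_mod_cast Nat.choose_pos (by omega)
      have hX : (((2 * (i + j)).choose (2 * i) * (fm (6 * i) * fm (6 * j)) : ℕ) : ℝ) ≤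
          1 / ((i + j).choose i : ℝ) * fm (6 * (i + j)) := by
        rw [div_mul_eq_mul_div, one_mul, le_div_iff₀ hcp]
        exact ht'
      refine le_trans hX ?_
      apply mul_le_mul_of_nonneg_right _ hfm.le
      by_cases hi1 : i = 1 ∨ i = i + j - 1
      · have h3 := cho1 (i + j) i (by omega) (by omega)
        have h4 : (1 : ℝ) / ((i + j).choose i : ℝ) ≤ 1 / ((i + j : ℕ) : ℝ) := by
          apply one_div_le_one_div_of_le
          · exact_mod_cast (by omega : 0 < i + j)
          · exact_mod_cast h3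
        rcases hi1 with h5 | h5
        · rw [if_pos h5]
          linarith
        · rw [if_pos h5]
          linarith
      · have h3 := cho2 (i + j) i (by omega) (by omega)
        have h4 : (1 : ℝ) / ((i + j).choose i : ℝ) ≤
            2 / (((i + j : ℕ) : ℝ) * (((i + j : ℕ) : ℝ) - 1)) := by
          rw [div_le_div_iff₀ hcp (by apply mul_pos <;> linarith), one_mul]
          have h5 : (((i + j) * (i + j - 1) : ℕ) : ℝ) ≤ ((2 * (i + j).choose i : ℕ) : ℝ) := by
            exact_mod_cast h3
          rw [Nat.cast_mul, Nat.cast_sub (by omega), Nat.cast_mul, Nat.cast_one] at h5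
          exact_mod_cast h5
        linarith
  rw [Nat.cast_sum]
  refine le_trans (sum_le_sum hterm) ?_
  rw [← sum_mul]
  apply mul_le_mul_of_nonneg_right _ hfm.le
  rw [sum_add_distrib, sum_add_distrib, sum_const, card_range, nsmul_eq_mul]
  rw [sum_ite_eq' (range (k + 1)) 1 (fun _ => (1 : ℝ) / k), sum_ite_eq' (range (k + 1)) (k - 1)
    (fun _ => (1 : ℝ) / k)]
  rw [if_pos (mem_range.2 (by omega)), if_pos (mem_range.2 (by omega))]
  push_cast
  have hk1 : (0 : ℝ) < (k : ℝ) - 1 := by linarith
  have hk0 : (0 : ℝ) < (k : ℝ) := by linarith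
  have h7 : ((k : ℝ) + 1) * (2 / ((k : ℝ) * (k - 1))) ≤ 6 / k := by
    rw [mul_div_assoc', div_le_div_iff₀ (by positivity) hk0]
    nlinarith
  calc (1 : ℝ) / k + 1 / k + ((k : ℝ) + 1) * (2 / (k * (k - 1))) ≤ 1 / k + 1 / k + 6 / k := by
        linarith
    _ = 8 / k := by ring

end Pool.Agent.K1H36.CG
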